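import Pool.Agent.Lib.MP_39c2b7_co.Interfaces2
import Pool.Agent.Lib.MP_39c2b7_co.H94.Fallb

/-!
Module EXT: adding the entry of a label of known degree, with a known walk around it.
-/

set_option autoImplicit false

namespace StrongArb.H29

open StrongArb StrongArb.H94

theorem aroundE_spec (E : Entries) (u : ℕ) : ∀ p : List ℕ, aroundE E u p = true →
    3 ≤ p.length ∧ ∀ i (h : i + 2 < p.length),
      (p[i]'(by omega)) ≠ (p[i+2]'(by omega)) ∧ ∃ e ∈ E, e.1 = (p[i+1]'(by omega)) ∧
      consB e.2 (p[i]'(by omega)) u = true ∧ consB e.2 u (p[i+2]'(by omega)) = true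
  | [] => by simp [aroundE]
  | [_] => by simp [aroundE]
  | [_, _] => by simp [aroundE]
  | [x, v, y] => by
      intro h
      simp only [aroundE, Bool.and_eq_true, Bool.not_eq_true', List.any_eq_true] at h
      obtain ⟨h1, e, he, ⟨h2, h3⟩, h4⟩ := h
      refine ⟨by simp, ?_⟩
      intro i hi
      have hi0 : i = 0 := by simp at hi; omega
      subst hi0
      refine ⟨?_, e, he, by simpa [Nat.beq_eq] using h2, h3, h4⟩
      intro h
      simp only [List.getElem_cons_zero, List.getElem_cons_succ] at h
      rw [h] at h1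
      simp at h1
  | x :: v :: y :: z :: t => by
      intro h
      simp only [aroundE, Bool.and_eq_true, Bool.not_eq_true', List.any_eq_true] at h
      obtain ⟨⟨h1, e, he, ⟨h2, h3⟩, h4⟩, h5⟩ := h
      obtain ⟨h6, h7⟩ := aroundE_spec E u (v :: y :: z :: t) h5
      refine ⟨by simp, ?_⟩
      intro i hi
      cases i with
      | zero =>
        refine ⟨?_, e, he, by simpa [Nat.beq_eq] using h2, h3, h4⟩
        intro h
        simp only [List.getElem_cons_zero, List.getElem_cons_succ] at h
        rw [h] at h1
        simp at h1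
      | succ i =>
        have := h7 i (by simp only [List.length_cons] at hi ⊢; omega)
        simpa using this

theorem walkE_spec {V : Type} {G : SimpleGraph V} {X : Set V} {E : Entries} {ψ : ℕ → V} {u : ℕ}
    {p : List ℕ} (hr : Realizes G X E ψ)
    (hp : ∀ i (h : i + 2 < p.length),
      (p[i]'(by omega)) ≠ (p[i+2]'(by omega)) ∧ ∃ e ∈ E, e.1 = (p[i+1]'(by omega)) ∧
      consB e.2 (p[i]'(by omega)) u = true ∧ consB e.2 u (p[i+2]'(by omega)) = true)
    {l : List V} (hl : IsLink G (ψ u) l) (hlen : ∀ j, j % l.length < l.length)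
    (h0 : ∀ h : 0 < p.length, ψ p[0] = l[0 % l.length]'(hlen 0))
    (h1 : ∀ h : 1 < p.length, ψ p[1] = l[1 % l.length]'(hlen 1)) :
    ∀ i (h : i < p.length), ψ p[i] = l[i % l.length]'(hlen i) := by
  intro i
  induction i using Nat.strong_induction_on with
  | _ i ih =>
    intro hi
    match i, hi, ih with
    | 0, hi, _ => exact h0 hi
    | 1, hi, _ => exact h1 hi
    | j + 2, hi, ih =>
      obtain ⟨c3, e, he, e1, c1, c2⟩ := hp j hi
      obtain ⟨hX, hlv⟩ := hr e he
      have a1 : G.Adj (ψ u) (ψ p[j + 2]) := consB_adj c2 hlv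
      have a2 : G.Adj (ψ p[j + 1]) (ψ p[j + 2]) := by
        rw [← e1, ← hlv.mem]
        exact List.mem_map_of_mem (consB_mem c2).2
      have hj := ih j (by omega) (by omega)
      have hj1 := ih (j + 1) (by omega) (by omega)
      apply next_pos hl (hlen j) (hlen (j + 1)) (hlen (j + 2)) a1
      · rw [← hj1]
        exact a2.symm
      · intro h
        rw [← hj] at h
        exact c3 (map_inj_on hlv.nodup (consB_mem c1).1 (consB_mem c2).2 h.symm)

theorem memB_iff (l : List ℕ) (a : ℕ) : memB l a = true ↔ a ∈ l := by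
  unfold memB
  rw [List.any_eq_true]
  constructor
  · rintro ⟨x, hx, h⟩
    rw [Nat.beq_eq] at h
    rwa [← h]
  · intro h
    exact ⟨a, h, by simp⟩

theorem nodup_of_nodupB : ∀ l : List ℕ, nodupB l = true → l.Nodup
  | [] => fun _ => List.nodup_nil
  | a :: t => by
      intro h
      simp only [nodupB, Bool.and_eq_true, Bool.not_eq_true'] at h
      rw [List.nodup_cons]
      refine ⟨fun hm => ?_, nodup_of_nodupB t h.2⟩
      rw [(memB_iff t a).2 hm] at h
      exact absurd h.1 (by simp)

theorem fresh_spec {E : Entries} {y : ℕ} (h : freshB E y = true) {e : ℕ × List ℕ} (he : e ∈ E) :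
    e.1 ≠ y ∧ y ∉ e.2 := by
  unfold freshB at h
  rw [List.all_eq_true] at h
  have := h e he
  simp only [Bool.and_eq_true, Bool.not_eq_true'] at this
  refine ⟨fun h1 => ?_, fun h1 => ?_⟩
  · rw [h1] at this
    simp at this
  · rw [(memB_iff _ _).2 h1] at this
    exact absurd this.2 (by simp)

/-- EXT. -/
theorem ext (hapi : LinkApi) : ExtStatement := by
  intro V G X hce E u d p fr ψ hreal har hlen hnd hfr huX hdeg
  obtain ⟨hk3, hp⟩ := aroundE_spec E u p har
  have hndup := nodup_of_nodupB fr hnd
  -- the link of `ψ u`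
  obtain ⟨l0, hl0⟩ := hce.link (ψ u)
  obtain ⟨-, e, he, e1', c1, c2⟩ := hp 0 (by omega)
  obtain ⟨hX, hlv⟩ := hreal e he
  rw [e1'] at hlv
  have e1 : G.Adj (ψ (p[0 + 1]'(by omega))) (ψ u) := by
    rw [← hlv.mem]
    exact List.mem_map_of_mem (consB_mem c1).2
  have e2 : G.Adj (ψ (p[0]'(by omega))) (ψ u) := consB_adj c1 hlv
  have e3 : G.Adj (ψ (p[0 + 1]'(by omega))) (ψ (p[0]'(by omega))) := by
    rw [← hlv.mem]
    exact List.mem_map_of_mem (consB_mem c1).1
  obtain ⟨l', hl', -⟩ := hapi.first V G (ψ u) _ _ l0 hl0 e2.symm e1.symm e3.symm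
  set l : List V := ψ (p[0]'(by omega)) :: ψ (p[0 + 1]'(by omega)) :: l' with hldef
  have hll : l.length = d := by
    rw [← hdeg]
    exact (hapi.dg V G (ψ u) l hl').symm
  have hlenm : ∀ j, j % l.length < l.length := fun j => Nat.mod_lt _ (by omega)
  have hw := walkE_spec hreal hp hl' hlenm
    (by
      intro h
      have : 0 % l.length = 0 := Nat.zero_mod _
      simp only [this]
      rfl)
    (by
      intro h
      have : 1 % l.length = 1 := Nat.mod_eq_of_lt (by omega)
      simp only [this]
      rfl)
  classical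
  set ψ' : ℕ → V := fun a => if a ∈ fr then l.getD (p.length + fr.idxOf a) (ψ 0) else ψ a
    with hψ'
  have hψn : ∀ a, a ∉ fr → ψ' a = ψ a := by
    intro a ha
    rw [hψ']
    simp only [ha, if_false]
  refine ⟨ψ', hψn, ?_⟩
  intro e he
  rw [List.mem_append] at he
  rcases he with he | he
  · obtain ⟨hX, hlv⟩ := hreal e he
    have h1 : e.1 ∉ fr := fun h => (fresh_spec (hfr _ h).1 he).1 rfl
    have h2 : e.2.map ψ' = e.2.map ψ := by
      apply List.map_congr_left
      intro a ha
      exact hψn a fun h => (fresh_spec (hfr _ h).1 he).2 ha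
    rw [hψn _ h1, h2]
    exact ⟨hX, hlv⟩
  · rw [List.mem_singleton] at he
    subst he
    have hu : u ∉ fr := fun h => (hfr _ h).2.1 rfl
    simp only
    rw [hψn u hu]
    refine ⟨huX, ?_⟩
    have : (p ++ fr).map ψ' = l := by
      apply List.ext_getElem
      · rw [List.length_map, List.length_append, hlen, hll]
      · intro i h1 h2
        rw [List.getElem_map]
        rcases Nat.lt_or_ge i p.length with h3 | h3
        · have hnf : p[i] ∉ fr := fun h => (hfr _ h).2.2 (List.getElem_mem _)
          rw [List.getElem_append_left h3, hψn _ hnf, hw i h3]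
          congr 1
          exact Nat.mod_eq_of_lt h2
        · rw [List.getElem_append_right h3]
          have hi : i - p.length < fr.length := by omega
          have hm : fr[i - p.length] ∈ fr := List.getElem_mem _
          have e' : p.length + (i - p.length) = i := by omega
          have e2' : ψ' fr[i - p.length] =
              l.getD (p.length + fr.idxOf fr[i - p.length]) (ψ 0) := by
            simp only [hψ', hm, if_true]
          rw [e2', hndup.idxOf_getElem _ hi, e', List.getD_eq_getElem _ _ h2]
    rw [this]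
    exact hl'

end StrongArb.H29
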