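import Pool.Agent.Lib.MP_39c2b7_co.Interfaces

/-!
Module SMALL: graphs with at most four vertices have good maps.
-/

set_option autoImplicit false

namespace StrongArb.H29

/-- four points in general position -/
def four (i : Fin 4) : Pt :=
  if i = 0 then (0, 0) else if i = 1 then (1, 0) else if i = 2 then (0, 1) else (1, 1)

theorem four_inj : ∀ i j : Fin 4, four i = four j → i = j := by decide

theorem four_general : ∀ (s i j k : Fin 4), form s (four i) = form s (four j) →
    form s (four i) = form s (four k) → i ≠ j → i ≠ k → j = k := by decide

theorem small : SmallStatement := by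
  intro V _ G hV
  classical
  have hinj : ∃ f : V → Fin 4, Function.Injective f := by
    have e := Finite.equivFin V
    exact ⟨fun v => Fin.castLE hV (e v), fun a b h => e.injective (Fin.castLE_injective hV h)⟩
  obtain ⟨f, hf⟩ := hinj
  refine ⟨fun v => four (f v), ?_, ?_⟩
  · intro u v huv h
    exact huv.ne (hf (four_inj _ _ h))
  · intro s v c hc
    have h1 : (slopeGraph G (fun v => four (f v)) s).Adj v c.snd := c.adj_snd hc.not_nil
    have h2 : (slopeGraph G (fun v => four (f v)) s).Adj c.penultimate v :=
      c.adj_penultimate hc.not_nil
    have h3 : c.snd ≠ c.penultimate := hc.snd_ne_penultimate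
    refine h3 (hf ?_)
    refine four_general s (f v) _ _ h1.2 h2.2.symm ?_ ?_
    · exact fun h => h1.1.ne (hf h)
    · exact fun h => h2.1.ne (hf h).symm

end StrongArb.H29
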